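import Pool.Agent.Y769.HC.TwoDim
import Pool.Agent.Results.MP_cf3fbb_gt.NoSigmaCompact

set_option autoImplicit false

open Set Filter Topology
open Pool.Agent.Results.MP_cf3fbb_gt.NoSigmaCompact
open Pool.Agent.Y769.HC

namespace Pool.Agent.Results.MP_cf3fbb_gt.HurewiczClassification

/-! ### Sequences with a value `∞` and eventually false sequences -/

/-- the maximum of `x 0, …, x i` is the number `m`, where `t` codes `(i, m)` -/
def AA (t : ℕ) : Set (ℕ → ℕ∞) :=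
  {x | (∀ j, j ≤ t.unpair.1 → x j ≤ (t.unpair.2 : ℕ∞)) ∧
    ∃ j, j ≤ t.unpair.1 ∧ (t.unpair.2 : ℕ∞) ≤ x j}

theorem isClopen_AA (t : ℕ) : IsClopen (AA t) := by
  have h1 : AA t = (⋂ j ∈ Finset.range (t.unpair.1 + 1),
      (fun x : ℕ → ℕ∞ => x j) ⁻¹' (Ici ((t.unpair.2 + 1 : ℕ) : ℕ∞))ᶜ) ∩
      ⋃ j ∈ Finset.range (t.unpair.1 + 1),
      (fun x : ℕ → ℕ∞ => x j) ⁻¹' (Ici (t.unpair.2 : ℕ∞)) := by
    have key : ∀ y : ℕ∞, y ≤ (t.unpair.2 : ℕ∞) ↔ ¬ ((t.unpair.2 + 1 : ℕ) : ℕ∞) ≤ y := by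
      intro y
      rw [not_le, Nat.cast_add, Nat.cast_one]
      exact (ENat.lt_add_one_iff (ENat.natCast_ne_top _)).symm
    ext x
    simp only [AA, mem_ofPred_eq, mem_inter_iff, mem_iInter, mem_iUnion, Finset.mem_range,
      mem_preimage, mem_compl_iff, mem_Ici, exists_prop, Nat.lt_succ_iff, key]
  rw [h1]
  refine IsClopen.inter ?_ ?_
  · exact isClopen_biInter_finset fun j _ =>
      (isClopen_Ici_nat _).compl.preimage (continuous_apply j)
  · exact isClopen_biUnion_finset fun j _ =>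
      (isClopen_Ici_nat _).preimage (continuous_apply j)

/-- the reduction -/
noncomputable def rho (x : ℕ → ℕ∞) (t : ℕ) : Bool := (AA t).boolIndicator x

theorem continuous_rho : Continuous rho :=
  continuous_pi fun t => (continuous_boolIndicator_iff_isClopen _).2 (isClopen_AA t)

theorem rho_eq_true {x : ℕ → ℕ∞} {t : ℕ} : rho x t = true ↔ x ∈ AA t :=
  (mem_iff_boolIndicator _ _).symm

theorem rho_mem_EvF (x : ℕ → ℕ∞) : rho x ∈ EvF ↔ ∃ n, x n = ⊤ := by
  constructor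
  · rintro ⟨N, hN⟩
    by_contra hcon
    push Not at hcon
    have hex : ∀ n, ∃ k : ℕ, (k : ℕ∞) = x n := fun n => ENat.ne_top_iff_exists.1 (hcon n)
    choose k hk using hex
    obtain ⟨j, hj1, hj2⟩ := Finset.exists_mem_eq_sup (Finset.range (N + 1)) ⟨0, by simp⟩ k
    have h1 : rho x (Nat.pair N ((Finset.range (N + 1)).sup k)) = true := by
      rw [rho_eq_true]
      refine ⟨?_, j, ?_, ?_⟩
      · intro i hi
        simp only [Nat.unpair_pair] at hi ⊢
        rw [← hk i]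
        exact_mod_cast Finset.le_sup (f := k) (Finset.mem_range.2 (Nat.lt_succ_of_le hi))
      · simp only [Nat.unpair_pair]
        exact Nat.lt_succ_iff.1 (Finset.mem_range.1 hj1)
      · simp only [Nat.unpair_pair]
        rw [hj2, hk j]
    rw [hN _ (Nat.left_le_pair _ _)] at h1
    exact absurd h1 (by simp)
  · rintro ⟨n, hn⟩
    have hfin : {t | rho x t = true}.Finite := by
      refine Set.Finite.of_finite_image (f := fun t : ℕ => t.unpair.1) ((finite_Iio n).subset ?_) ?_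
      · rintro _ ⟨t, ht, rfl⟩
        have ht : x ∈ AA t := rho_eq_true.1 ht
        show t.unpair.1 < n
        by_contra hcon
        have := ht.1 n (not_lt.1 hcon)
        rw [hn, top_le_iff] at this
        exact ENat.natCast_ne_top _ this
      · intro t ht t' ht' he
        have ht : x ∈ AA t := rho_eq_true.1 ht
        have ht' : x ∈ AA t' := rho_eq_true.1 ht'
        have he : t.unpair.1 = t'.unpair.1 := he
        obtain ⟨j, hj1, hj2⟩ := ht.2
        obtain ⟨j', hj1', hj2'⟩ := ht'.2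
        have h1 : ((t.unpair.2 : ℕ) : ℕ∞) ≤ (t'.unpair.2 : ℕ∞) :=
          hj2.trans (ht'.1 j (he ▸ hj1))
        have h2 : ((t'.unpair.2 : ℕ) : ℕ∞) ≤ (t.unpair.2 : ℕ∞) :=
          hj2'.trans (ht.1 j' (he ▸ hj1'))
        have h3 : t.unpair.2 = t'.unpair.2 :=
          le_antisymm (by exact_mod_cast h1) (by exact_mod_cast h2)
        rw [← Nat.pair_unpair t, ← Nat.pair_unpair t', he, h3]
    obtain ⟨N, hN⟩ := hfin.bddAbove
    refine ⟨N + 1, fun i hi => ?_⟩
    by_contra hcon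
    have : i ≤ N := hN (show rho x i = true by simpa using hcon)
    omega

/-! ### Sets which are the intersection of an `F_σ` set and a `G_δ` set -/

theorem exists_compact_of_finite {X U : Set ℝ} {ℱ : Set (Set X)} (hfin : ℱ.Finite)
    (h : ∀ V ∈ ℱ, ∃ C : Set ℝ, IsCompact C ∧ C ⊆ U ∧ V ⊆ Subtype.val ⁻¹' C) :
    ∃ C : Set ℝ, IsCompact C ∧ C ⊆ U ∧ ⋃₀ ℱ ⊆ Subtype.val ⁻¹' C := by
  classical
  have h' : ∀ V, ∃ C : Set ℝ, V ∈ ℱ → IsCompact C ∧ C ⊆ U ∧ V ⊆ Subtype.val ⁻¹' C := by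
    intro V
    by_cases hV : V ∈ ℱ
    · obtain ⟨C, hC⟩ := h V hV
      exact ⟨C, fun _ => hC⟩
    · exact ⟨∅, fun h => absurd h hV⟩
  choose C hC using h'
  refine ⟨⋃ V ∈ ℱ, C V, hfin.isCompact_biUnion fun V hV => (hC V hV).1,
    iUnion₂_subset fun V hV => (hC V hV).2.1, ?_⟩
  rintro x ⟨V, hV, hx⟩
  exact mem_biUnion hV ((hC V hV).2.2 hx)

theorem exists_sigmaCompact_in_Gdelta {X : Set ℝ} (hX : Hurewicz X) {U : ℕ → Set ℝ}
    (hU : ∀ n, IsOpen (U n)) (hXU : X ⊆ ⋂ n, U n) :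
    ∃ C : ℕ → Set ℝ, (∀ n, IsCompact (C n)) ∧ (∀ n, C n ⊆ ⋂ n, U n) ∧ X ⊆ ⋃ n, C n := by
  classical
  -- make the open sets decreasing
  let V : ℕ → Set ℝ := fun n => ⋂ i ∈ Finset.range (n + 1), U i
  have hVo : ∀ n, IsOpen (V n) := fun n => isOpen_biInter_finset fun i _ => hU i
  have hVa : Antitone V := by
    intro m n hmn x hx
    simp only [V, mem_iInter] at hx ⊢
    intro i hi
    exact hx i (Finset.mem_range.2 (lt_of_lt_of_le (Finset.mem_range.1 hi) (by omega)))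
  have hVU : ⋂ n, V n ⊆ ⋂ n, U n := by
    intro x hx
    refine mem_iInter.2 fun n => ?_
    have h1 := mem_iInter.1 hx n
    simp only [V, mem_iInter] at h1
    exact h1 n (Finset.mem_range.2 (Nat.lt_succ_self n))
  have hXV : ∀ n, X ⊆ V n := by
    intro n x hx
    simp only [V, mem_iInter]
    exact fun i _ => mem_iInter.1 (hXU hx) i
  by_cases hA : ∀ n, ∃ C : Set ℝ, IsCompact C ∧ X ⊆ C ∧ C ⊆ V n
  · choose C hC1 hC2 hC3 using hA
    refine ⟨fun _ => ⋂ n, C n, fun _ => ?_, fun _ => ?_, ?_⟩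
    · exact (hC1 0).of_isClosed_subset (isClosed_iInter fun n => (hC1 n).isClosed)
        (iInter_subset _ 0)
    · exact (iInter_mono hC3).trans hVU
    · exact fun x hx => mem_iUnion.2 ⟨0, mem_iInter.2 fun n => hC2 n hx⟩
  · push Not at hA
    obtain ⟨N, hN⟩ := hA
    have hN' : ∀ n, N ≤ n → ∀ C : Set ℝ, IsCompact C → C ⊆ V n → ¬ X ⊆ C := by
      intro n hn C hC hCV hXC
      exact hN C hC hXC (hCV.trans (hVa hn))
    let 𝒰 : ℕ → Set (Set X) := fun n => {O | IsOpen O ∧ ∃ C : Set ℝ, IsCompact C ∧ C ⊆ V (n + N) ∧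
      O ⊆ Subtype.val ⁻¹' C}
    have hfinU : ∀ n, ∀ ℱ ⊆ 𝒰 n, ℱ.Finite → ∃ C : Set ℝ, IsCompact C ∧ C ⊆ V (n + N) ∧
        ⋃₀ ℱ ⊆ Subtype.val ⁻¹' C := fun n ℱ hℱ hfin =>
      exists_compact_of_finite hfin (fun O hO => (hℱ hO).2)
    have hno : ∀ n (C : Set ℝ), IsCompact C → C ⊆ V (n + N) →
        ¬ (univ : Set X) ⊆ Subtype.val ⁻¹' C := by
      intro n C hC hCV hcon
      exact hN' (n + N) (Nat.le_add_left _ _) C hC hCV (fun x hx => hcon (mem_univ ⟨x, hx⟩))
    obtain ⟨ℱ, hℱ1, hℱ2⟩ := hX 𝒰 (by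
      intro n
      refine ⟨fun O hO => hO.1, ?_, ?_⟩
      · rintro ⟨-, C, hC1, hC2, hC3⟩
        exact hno n C hC1 hC2 hC3
      · refine eq_univ_of_forall fun x => ?_
        obtain ⟨C, hC1, hC2, hC3⟩ := exists_compact_subset (hVo (n + N)) (hXV (n + N) x.2)
        exact mem_sUnion.2 ⟨Subtype.val ⁻¹' (interior C),
          ⟨isOpen_interior.preimage continuous_subtype_val, C, hC1, hC3,
            preimage_mono interior_subset⟩, hC2⟩) (by
      intro n 𝒢 h𝒢 hfin hcon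
      obtain ⟨C, hC1, hC2, hC3⟩ := hfinU n 𝒢 h𝒢 hfin
      rw [hcon] at hC3
      exact hno n C hC1 hC2 hC3)
    obtain ⟨-, hinf, hγ⟩ := hℱ2
    let ι := hinf.natEmbedding
    have hι : ∀ k, ∃ n, ⋃₀ ℱ n = (ι k : Set X) := fun k => (ι k).2
    choose e he using hι
    have hinj : Function.Injective e := by
      intro a b hab
      apply ι.injective
      apply Subtype.ext
      rw [← he a, ← he b, hab]
    have hC : ∀ k, ∃ C : Set ℝ, IsCompact C ∧ C ⊆ V (e k + N) ∧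
        ⋃₀ ℱ (e k) ⊆ Subtype.val ⁻¹' C := fun k => hfinU _ _ (hℱ1 (e k)).1 (hℱ1 (e k)).2
    choose C hC1 hC2 hC3 using hC
    refine ⟨fun j => ⋂ k, C (j + k), fun j => ?_, fun j => ?_, ?_⟩
    · exact (hC1 (j + 0)).of_isClosed_subset (isClosed_iInter fun k => (hC1 _).isClosed)
        (iInter_subset _ 0)
    · refine subset_trans ?_ hVU
      intro x hx
      refine mem_iInter.2 fun n => ?_
      obtain ⟨k, hk1, hk2⟩ := ((hinj.nat_tendsto_atTop.eventually (eventually_ge_atTop n)).and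
        (eventually_ge_atTop j)).exists
      have h1 : x ∈ C (j + (k - j)) := mem_iInter.1 hx (k - j)
      rw [Nat.add_sub_cancel' hk2] at h1
      exact hVa (hk1.trans (Nat.le_add_right _ _)) (hC2 k h1)
    · intro x hx
      have hfin : {k | (⟨x, hx⟩ : X) ∉ ⋃₀ ℱ (e k)}.Finite := by
        refine Set.Finite.of_finite_image (f := fun k => (ι k : Set X))
          ((hγ ⟨x, hx⟩).subset ?_) ?_
        · rintro _ ⟨k, hk, rfl⟩
          refine ⟨(ι k).2, ?_⟩
          show (⟨x, hx⟩ : X) ∉ (ι k : Set X)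
          rw [← he k]
          exact hk
        · intro a _ b _ hab
          exact ι.injective (Subtype.ext hab)
      obtain ⟨j, hj⟩ := hfin.bddAbove
      refine mem_iUnion.2 ⟨j + 1, mem_iInter.2 fun k => ?_⟩
      by_contra hcon
      have h1 : j + 1 + k ≤ j := hj (fun hmem => hcon (hC3 _ hmem))
      omega

/-! ### The classification -/

/-- For a Borel set `B` of reals, every subset of `B` with the Hurewicz property is contained in a
`σ`-compact subset of `B` if and only if `B` is the intersection of an `F_σ` set and a `G_δ` set. -/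
theorem classification (B : Set ℝ) (hB : MeasurableSet B) :
    (∀ X : Set ℝ, X ⊆ B → Hurewicz X → ∃ F : Set ℝ, IsSigmaCompact F ∧ X ⊆ F ∧ F ⊆ B) ↔
    ∃ T U : ℕ → Set ℝ, (∀ n, IsClosed (T n)) ∧ (∀ n, IsOpen (U n)) ∧
      B = (⋃ n, T n) ∩ ⋂ n, U n := by
  classical
  constructor
  · intro hall
    by_contra hnot
    obtain ⟨f, hf1, hf2⟩ := two_dim hB hnot
    obtain ⟨ι, _, _, s, hmono, hunb, hsmall⟩ := exists_scale
    have hLex : ∀ l : ι, ∃ s : ℕ → ι, (∃ s : ℕ → ι, (∀ k, s k < l) ∧ ∀ b < l, ∃ k, b ≤ s k) →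
        (∀ k, s k < l) ∧ ∀ b < l, ∃ k, b ≤ s k := by
      intro l
      by_cases h : ∃ s : ℕ → ι, (∀ k, s k < l) ∧ ∀ b < l, ∃ k, b ≤ s k
      · obtain ⟨s, hs⟩ := h
        exact ⟨s, fun _ => hs⟩
      · exact ⟨fun _ => l, fun h' => absurd h' h⟩
    choose L hL using hLex
    have hL' : ∀ l, (∃ s : ℕ → ι, (∀ k, s k < l) ∧ ∀ b < l, ∃ k, b ≤ s k) → good L l := hL
    let g : W → ℝ := fun w => f (rho w.2, rho w.1)
    have hg : Continuous g := hf1.comp (Continuous.prodMk (continuous_rho.comp continuous_snd)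
      (continuous_rho.comp continuous_fst))
    have hgB : ∀ w, g w ∈ B ↔ w ∈ BW := by
      intro w
      show f (rho w.2, rho w.1) ∈ B ↔ _
      rw [hf2, rho_mem_EvF, rho_mem_EvF]
      constructor
      · rintro (h | ⟨n, hn⟩) h1 m hm
        · exact h ⟨m, hm⟩
        · exact h1 n hn
      · intro h
        by_cases h1 : ∃ n, w.1 n = ⊤
        · exact Or.inr h1
        · push Not at h1
          refine Or.inl ?_
          rintro ⟨m, hm⟩
          exact h h1 m hm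
    have hne : (XW s L).Nonempty := ⟨(fun _ => ⊤, fun _ => 0), Or.inl ⟨0, rfl⟩⟩
    have hHur : Hur (XW s L) := hur_of_crit hne (hurewicz_crit s L hmono hunb hsmall)
    have hHur2 : Hur (g '' (XW s L)) := by
      refine hHur.of_surjective (g := fun w : XW s L => (⟨g w, mem_image_of_mem g w.2⟩ :
        ↥(g '' (XW s L)))) ?_ ?_
      · exact (hg.comp continuous_subtype_val).subtype_mk _
      · rintro ⟨_, w, hw, rfl⟩
        exact ⟨⟨w, hw⟩, rfl⟩
    obtain ⟨F, ⟨Kc, hKc, hKF⟩, hXF, hFB⟩ := hall (g '' (XW s L)) (by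
      rintro _ ⟨w, hw, rfl⟩
      exact (hgB w).2 (XW_subset_BW s L hw)) hHur2.hurewicz
    refine no_sigma s L hmono hunb hsmall hL' (fun n => g ⁻¹' (Kc n))
      (fun n => ((hKc n).isClosed.preimage hg).isCompact) ?_ ?_
    · intro n p hp
      exact (hgB p).1 (hFB (hKF ▸ mem_iUnion.2 ⟨n, hp⟩))
    · intro p hp
      have h1 : g p ∈ F := hXF ⟨p, hp, rfl⟩
      rw [← hKF] at h1
      obtain ⟨n, hn⟩ := mem_iUnion.1 h1
      exact mem_iUnion.2 ⟨n, hn⟩
  · rintro ⟨T, U, hT, hU, rfl⟩ X hXB hX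
    obtain ⟨C, hC1, hC2, hC3⟩ := exists_sigmaCompact_in_Gdelta hX hU
      (hXB.trans inter_subset_right)
    refine ⟨⋃ p : ℕ × ℕ, T p.1 ∩ C p.2, isSigmaCompact_iUnion_of_isCompact _
      (fun p => (hC1 p.2).inter_left (hT p.1)), ?_, ?_⟩
    · intro x hx
      obtain ⟨n, hn⟩ := mem_iUnion.1 (hXB hx).1
      obtain ⟨m, hm⟩ := mem_iUnion.1 (hC3 hx)
      exact mem_iUnion.2 ⟨(n, m), hn, hm⟩
    · intro x hx
      obtain ⟨p, hp1, hp2⟩ := mem_iUnion.1 hx
      exact ⟨mem_iUnion.2 ⟨_, hp1⟩, hC2 _ hp2⟩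

/-- The Borel sets `B` of reals for which every subset of `B` with the Hurewicz property is
contained in a `σ`-compact subset of `B` are exactly the intersections of an `F_σ` set and a `G_δ`
set, and not every `F_σδ` set is of this form. -/
theorem result :
    (∀ B : Set ℝ, MeasurableSet B →
      ((∀ X : Set ℝ, X ⊆ B → Hurewicz X → ∃ F : Set ℝ, IsSigmaCompact F ∧ X ⊆ F ∧ F ⊆ B) ↔
        ∃ T U : ℕ → Set ℝ, (∀ n, IsClosed (T n)) ∧ (∀ n, IsOpen (U n)) ∧
          B = (⋃ n, T n) ∩ ⋂ n, U n)) ∧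
    ∃ B : Set ℝ, (∃ C : ℕ → ℕ → Set ℝ, (∀ n m, IsClosed (C n m)) ∧ B = ⋂ n, ⋃ m, C n m) ∧
      ¬ ∃ T U : ℕ → Set ℝ, (∀ n, IsClosed (T n)) ∧ (∀ n, IsOpen (U n)) ∧
          B = (⋃ n, T n) ∩ ⋂ n, U n := by
  refine ⟨classification, ?_⟩
  obtain ⟨B, X, hC, hB, hXB, hX, hno⟩ := NoSigmaCompact.result
  exact ⟨B, hC, fun h => hno ((classification B hB).2 h X hXB hX)⟩

end Pool.Agent.Results.MP_cf3fbb_gt.HurewiczClassification
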